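import Pool.Agent.Lib.MP_c99d13_lc.Poly

/-!
# Deciding antistrong plus strong arc-disjoint spanning subdigraphs is NP-hard

SAT reduces in polynomial time to the problem whether a digraph has two arc-disjoint spanning
subdigraphs, one antistrong and one strongly connected.
-/

namespace Pool.Agent.Results.MP_c99d13_lc.Hardness

open Pool.Agent.PolyTime Pool.Agent.Lib.MP_c99d13_lc

/-- SAT reduces in polynomial time to the existence of arc-disjoint spanning subdigraphs, one
antistrong and one strongly connected. -/
theorem result :
    Function.Injective (encode : CNF → List Bool) ∧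
    Function.Injective (encode : Dgr → List Bool) ∧
    ∃ f : CNF → Dgr,
      Nonempty (Turing.TM2ComputableInPolyTime (encode (α := CNF)) (encode (α := Dgr)) f) ∧
      ∀ φ : CNF, Sat φ ↔ (f φ).Decomposable :=
  ⟨encode_injective, encode_injective, graph, PT_graph.tm2, sat_iff⟩

end Pool.Agent.Results.MP_c99d13_lc.Hardness
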